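import Mathlib
import Pool.Agent.H68.AntichainG2
import Pool.Agent.H68.AntichainGeom

set_option autoImplicit false

namespace Pool.Agent.Results.MP_efb25f_co.MaximalAntichain

open MeasureTheory Set Filter Topology Measure
open scoped ENNReal NNReal

/-- An `n`-cube antichain: a subset of `[0,1]^n` in which no two distinct points are comparable
in the coordinatewise order. -/
def IsCubeAntichain (n : ℕ) (S : Set (EuclideanSpace ℝ (Fin n))) : Prop :=
  (∀ x ∈ S, ∀ i, 0 ≤ x i ∧ x i ≤ 1) ∧ ∀ x ∈ S, ∀ y ∈ S, (∀ i, x i ≤ y i) → x = y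

/-- The facet `{x ∈ [0,1]^n : x_j = 0}` of the unit cube. -/
def cubeFacet (n : ℕ) (j : Fin n) : Set (EuclideanSpace ℝ (Fin n)) :=
  {x | (∀ i, 0 ≤ x i ∧ x i ≤ 1) ∧ x j = 0}

section facets

variable {m : ℕ}

/-- the unit cube of `ℝ^m` -/
def cube (m : ℕ) : Set (EuclideanSpace ℝ (Fin m)) := {y | ∀ k, 0 ≤ y k ∧ y k ≤ 1}

/-- insert a zero coordinate -/
noncomputable def ins (j : Fin (m + 1)) (y : EuclideanSpace ℝ (Fin m)) :
    EuclideanSpace ℝ (Fin (m + 1)) := WithLp.toLp 2 (j.insertNth (0 : ℝ) y.ofLp)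

theorem ins_same (j : Fin (m + 1)) (y : EuclideanSpace ℝ (Fin m)) : ins j y j = 0 := by
  simp [ins]

theorem ins_succAbove (j : Fin (m + 1)) (y : EuclideanSpace ℝ (Fin m)) (k : Fin m) :
    ins j y (j.succAbove k) = y k := by
  simp [ins]

theorem ins_isometry (j : Fin (m + 1)) : Isometry (ins (m := m) j) := by
  apply Isometry.of_dist_eq
  intro x y
  rw [EuclideanSpace.dist_eq, EuclideanSpace.dist_eq, Fin.sum_univ_succAbove _ j]
  simp [ins_same, ins_succAbove]

theorem facet_eq (j : Fin (m + 1)) : cubeFacet (m + 1) j = ins j '' cube m := by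
  ext x
  constructor
  · rintro ⟨h1, h2⟩
    refine ⟨WithLp.toLp 2 (fun k => x (j.succAbove k)), fun k => h1 _, ?_⟩
    ext i
    by_cases hi : i = j
    · subst hi
      rw [ins_same, h2]
    · obtain ⟨k, rfl⟩ := Fin.exists_succAbove_eq hi
      rw [ins_succAbove]
  · rintro ⟨y, hy, rfl⟩
    refine ⟨fun i => ?_, ins_same j y⟩
    by_cases hi : i = j
    · subst hi
      rw [ins_same]
      simp
    · obtain ⟨k, rfl⟩ := Fin.exists_succAbove_eq hi
      rw [ins_succAbove]
      exact hy k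

theorem facet_measure (j : Fin (m + 1)) :
    μH[(m : ℝ)] (cubeFacet (m + 1) j) = μH[(m : ℝ)] (cube m) := by
  rw [facet_eq, (ins_isometry j).hausdorffMeasure_image (Or.inl (by positivity))]

theorem hausdorff_eq_volume (A : Set (Fin m → ℝ)) : μH[(m : ℝ)] A = volume A := by
  have := hausdorffMeasure_pi_real (ι := Fin m)
  rw [Fintype.card_fin] at this
  rw [this]

theorem cube_pos : μH[(m : ℝ)] (cube m) ≠ 0 := by
  have h1 := (PiLp.lipschitzWith_ofLp 2 (fun _ : Fin m => ℝ)).hausdorffMeasure_image_le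
    (d := (m : ℝ)) (by positivity) (cube m)
  have h2 : (@WithLp.ofLp 2 (Fin m → ℝ)) '' (cube m) = Icc 0 1 := by
    ext y
    constructor
    · rintro ⟨x, hx, rfl⟩
      exact ⟨fun k => (hx k).1, fun k => (hx k).2⟩
    · rintro ⟨h1, h2⟩
      exact ⟨WithLp.toLp 2 y, fun k => ⟨h1 k, h2 k⟩, rfl⟩
  rw [h2, hausdorff_eq_volume, Real.volume_Icc_pi] at h1
  simp at h1
  intro h
  rw [h] at h1
  simp at h1

theorem cube_finite : μH[(m : ℝ)] (cube m) ≠ ⊤ := by
  have h1 := (PiLp.lipschitzWith_toLp 2 (fun _ : Fin m => ℝ)).hausdorffMeasure_image_le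
    (d := (m : ℝ)) (by positivity) (Icc 0 1)
  have h2 : (@WithLp.toLp 2 (Fin m → ℝ)) '' (Icc 0 1) = cube m := by
    ext y
    constructor
    · rintro ⟨x, hx, rfl⟩
      exact fun k => ⟨hx.1 k, hx.2 k⟩
    · intro h
      exact ⟨y.ofLp, ⟨fun k => (h k).1, fun k => (h k).2⟩, rfl⟩
  rw [h2, hausdorff_eq_volume, Real.volume_Icc_pi] at h1
  apply ne_top_of_le_ne_top _ h1
  apply ENNReal.mul_ne_top
  · apply ENNReal.rpow_ne_top_of_nonneg (by positivity) ENNReal.coe_ne_top
  · simp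

end facets

theorem main (m : ℕ) : ∃ S : Set (EuclideanSpace ℝ (Fin (m + 1))), IsCubeAntichain (m + 1) S ∧
    μH[(m : ℝ)] S = (m + 1 : ℕ) * μH[(m : ℝ)] (cube m) := by
  classical
  obtain ⟨G, N, hmono, hcont, hG01, hGsurj, hNm, hZ, hN⟩ :=
    Pool.Agent.H68.Anti.exists_G (m + 1) (by omega)
  set gm : (Fin (m + 1) → ℝ) → EuclideanSpace ℝ (Fin (m + 1)) :=
    fun t => WithLp.toLp 2 (fun i => G (t i)) with hgm
  have gm_apply : ∀ t i, gm t i = G (t i) := fun t i => rfl
  have gm_cont : Continuous gm := by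
    apply (PiLp.continuous_toLp 2 (fun _ : Fin (m + 1) => ℝ)).comp
    fun_prop
  have gm_inj : Function.Injective gm := by
    intro s t h
    ext i
    apply hmono.injective
    rw [← gm_apply, ← gm_apply, h]
  have gm_emb : MeasurableEmbedding gm := gm_cont.measurableEmbedding gm_inj
  set T0 : Set (Fin (m + 1) → ℝ) := {t | ∑ i, t i = 0} with hT0
  have hT0m : MeasurableSet T0 := by
    apply measurableSet_eq_fun <;> fun_prop
  set S := gm '' T0 with hSdef
  have hS : Pool.Agent.H68.Anti.IsAnti S := by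
    rintro _ ⟨s, hs, rfl⟩ _ ⟨t, ht, rfl⟩ h
    have hle : ∀ i, s i ≤ t i := fun i => hmono.le_iff_le.1 (h i)
    have hs' : ∑ i, s i = 0 := hs
    have ht' : ∑ i, t i = 0 := ht
    have heq : ∀ i ∈ Finset.univ, s i = t i :=
      (Finset.sum_eq_sum_iff_of_le (fun i _ => hle i)).1 (by rw [hs', ht'])
    have : s = t := funext fun i => heq i (Finset.mem_univ i)
    rw [this]
  set Z := G '' Nᶜ with hZdef
  have hnull : ∀ k : Fin m, volume {y : Fin m → ℝ | y k ∈ Z} = 0 := fun k =>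
    Measure.pi_eval_preimage_null (fun _ : Fin m => (volume : Measure ℝ)) (i := k) hZ
  -- the good pieces
  set Sj : Fin (m + 1) → Set (EuclideanSpace ℝ (Fin (m + 1))) :=
    fun j => gm '' {t | t ∈ T0 ∧ ∀ i, i ≠ j → t i ∈ N} with hSj
  set R : Fin (m + 1) → Fin (m + 1) → Set (EuclideanSpace ℝ (Fin (m + 1))) :=
    fun a b => gm '' {t | t ∈ T0 ∧ t a ∉ N ∧ t b ∉ N} with hR
  have hcoordm : ∀ i : Fin (m + 1), MeasurableSet {t : Fin (m + 1) → ℝ | t i ∈ N} := fun i =>
    measurable_pi_apply i hNm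
  have hSjm : ∀ j, MeasurableSet (Sj j) := by
    intro j
    apply gm_emb.measurableSet_image.2
    have : {t | t ∈ T0 ∧ ∀ i, i ≠ j → t i ∈ N}
        = T0 ∩ ⋂ i, ⋂ (_ : i ≠ j), {t : Fin (m + 1) → ℝ | t i ∈ N} := by
      ext t; simp
    rw [this]
    exact hT0m.inter (MeasurableSet.iInter fun i => MeasurableSet.iInter fun _ => hcoordm i)
  have hRm : ∀ a b, MeasurableSet (R a b) := by
    intro a b
    apply gm_emb.measurableSet_image.2
    have : {t | t ∈ T0 ∧ t a ∉ N ∧ t b ∉ N}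
        = T0 ∩ ({t : Fin (m + 1) → ℝ | t a ∈ N}ᶜ ∩ {t : Fin (m + 1) → ℝ | t b ∈ N}ᶜ) := by
      ext t
      simp only [mem_ofPred_eq, mem_inter_iff, mem_compl_iff]
    rw [this]
    exact hT0m.inter ((hcoordm a).compl.inter (hcoordm b).compl)
  have hSjS : ∀ j, Sj j ⊆ S := fun j => image_mono fun t ht => ht.1
  have hRS : ∀ a b, R a b ⊆ S := fun a b => image_mono fun t ht => ht.1
  -- the coordinate `j` of a point of `Sj j` is atypical
  have hSjZ : ∀ j, ∀ x ∈ Sj j, x j ∈ Z := by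
    rintro j _ ⟨t, ⟨ht0, ht⟩, rfl⟩
    refine ⟨t j, ?_, rfl⟩
    intro hj
    apply hN t _ ht0
    intro i
    by_cases hi : i = j
    · rw [hi]; exact hj
    · exact ht i hi
  have hprojS : ∀ j i : Fin (m + 1), i ≠ j → volume (Pool.Agent.H68.Anti.Qm i '' Sj j) = 0 := by
    intro j i hij
    obtain ⟨k, hk⟩ := Fin.exists_succAbove_eq hij.symm
    apply measure_mono_null _ (hnull k)
    rintro _ ⟨x, hx, rfl⟩
    show x (i.succAbove k) ∈ Z
    rw [hk]
    exact hSjZ j x hx
  have hprojR : ∀ a b : Fin (m + 1), a ≠ b → ∀ i, volume (Pool.Agent.H68.Anti.Qm i '' R a b) = 0 := by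
    intro a b hab i
    have key : ∀ c : Fin (m + 1), c ≠ i → (∀ x ∈ R a b, x c ∈ Z) →
        volume (Pool.Agent.H68.Anti.Qm i '' R a b) = 0 := by
      intro c hc hx
      obtain ⟨k, hk⟩ := Fin.exists_succAbove_eq hc
      apply measure_mono_null _ (hnull k)
      rintro _ ⟨x, hx', rfl⟩
      show x (i.succAbove k) ∈ Z
      rw [hk]
      exact hx x hx'
    by_cases ha : a = i
    · apply key b (fun h => hab (ha.trans h.symm))
      rintro _ ⟨t, ⟨_, _, ht⟩, rfl⟩
      exact ⟨t b, ht, rfl⟩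
    · apply key a ha
      rintro _ ⟨t, ⟨_, ht, _⟩, rfl⟩
      exact ⟨t a, ht, rfl⟩
  have hRnull : ∀ a b, a ≠ b → μH[(m : ℝ)] (R a b) = 0 := fun a b hab =>
    Pool.Agent.H68.Anti.null_of_proj hS (hRS a b) (hRm a b) (hprojR a b hab)
  -- projections have full measure
  have hproj : ∀ j, μH[(m : ℝ)] (Pool.Agent.H68.Anti.Pj j '' Sj j) = μH[(m : ℝ)] (cube m) := by
    intro j
    rw [← facet_measure j]
    apply le_antisymm
    · apply measure_mono
      rintro _ ⟨_, ⟨t, ht, rfl⟩, rfl⟩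
      refine ⟨fun i => ?_, ?_⟩
      · rw [Pool.Agent.H68.Anti.Pj_apply]
        split_ifs
        · simp
        · exact ⟨(hG01 _).1.le, (hG01 _).2.le⟩
      · rw [Pool.Agent.H68.Anti.Pj_apply]; simp
    · set W : Set (Fin m → ℝ) := ⋃ k, {y : Fin m → ℝ | y k ∈ Z ∪ {0, 1}} with hW
      have hWnull : volume W = 0 := by
        rw [hW, measure_iUnion_null_iff]
        intro k
        refine Measure.pi_eval_preimage_null (fun _ : Fin m => (volume : Measure ℝ)) (i := k) ?_
        rw [measure_union_null_iff]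
        exact ⟨hZ, (Set.toFinite _).measure_zero _⟩
      have hJ : μH[(m : ℝ)] (ins j '' ((@WithLp.toLp 2 (Fin m → ℝ)) '' W)) = 0 := by
        rw [(ins_isometry j).hausdorffMeasure_image (Or.inl (by positivity))]
        have h1 := (PiLp.lipschitzWith_toLp 2 (fun _ : Fin m => ℝ)).hausdorffMeasure_image_le
          (d := (m : ℝ)) (by positivity) W
        rw [hausdorff_eq_volume, hWnull, mul_zero] at h1
        exact nonpos_iff_eq_zero.1 h1
      have hsub : cubeFacet (m + 1) j ⊆ Pool.Agent.H68.Anti.Pj j '' Sj j ∪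
          ins j '' ((@WithLp.toLp 2 (Fin m → ℝ)) '' W) := by
        rintro x ⟨hx1, hx2⟩
        by_cases hxW : (fun k => x (j.succAbove k)) ∈ W
        · right
          refine ⟨_, ⟨_, hxW, rfl⟩, ?_⟩
          ext i
          by_cases hi : i = j
          · subst hi
            rw [ins_same, hx2]
          · obtain ⟨k, rfl⟩ := Fin.exists_succAbove_eq hi
            rw [ins_succAbove]
        · left
          have hx3 : ∀ k : Fin m, ∃ s, G s = x (j.succAbove k) ∧ s ∈ N := by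
            intro k
            have hk : ¬ (x (j.succAbove k) ∈ Z ∪ {0, 1}) := by
              intro hc
              exact hxW (mem_iUnion.2 ⟨k, hc⟩)
            simp only [mem_union, mem_insert_iff, mem_singleton_iff, not_or] at hk
            obtain ⟨hk1, hk2, hk3⟩ := hk
            obtain ⟨s, hs⟩ := hGsurj (x (j.succAbove k)) (lt_of_le_of_ne (hx1 _).1 (Ne.symm hk2))
              (lt_of_le_of_ne (hx1 _).2 hk3)
            refine ⟨s, hs, ?_⟩
            by_contra hsN
            exact hk1 ⟨s, hsN, hs⟩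
          choose s hs hsN using hx3
          refine ⟨gm (j.insertNth (-∑ k, s k) s), ⟨_, ⟨?_, ?_⟩, rfl⟩, ?_⟩
          · show ∑ i, (j.insertNth (-∑ k, s k) s : Fin (m + 1) → ℝ) i = 0
            rw [Fin.sum_univ_succAbove _ j]
            simp
          · intro i hi
            obtain ⟨k, rfl⟩ := Fin.exists_succAbove_eq hi
            simpa using hsN k
          · ext i
            rw [Pool.Agent.H68.Anti.Pj_apply]
            by_cases hi : i = j
            · subst hi
              simp [hx2]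
            · obtain ⟨k, rfl⟩ := Fin.exists_succAbove_eq hi
              simp only [Fin.succAbove_ne, if_false]
              rw [gm_apply, Fin.insertNth_apply_succAbove, hs k]
      calc μH[(m : ℝ)] (cubeFacet (m + 1) j) ≤ μH[(m : ℝ)] (Pool.Agent.H68.Anti.Pj j '' Sj j ∪
          ins j '' ((@WithLp.toLp 2 (Fin m → ℝ)) '' W)) := measure_mono hsub
        _ ≤ μH[(m : ℝ)] (Pool.Agent.H68.Anti.Pj j '' Sj j) +
          μH[(m : ℝ)] (ins j '' ((@WithLp.toLp 2 (Fin m → ℝ)) '' W)) := measure_union_le _ _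
        _ = μH[(m : ℝ)] (Pool.Agent.H68.Anti.Pj j '' Sj j) := by rw [hJ, add_zero]
  have hSjmeas : ∀ j, μH[(m : ℝ)] (Sj j) = μH[(m : ℝ)] (cube m) := by
    intro j
    rw [← hproj j]
    apply le_antisymm
    · exact Pool.Agent.H68.Anti.measure_le_proj hS (hSjS j) (hSjm j) j (hprojS j)
    · have := (Pool.Agent.H68.Anti.Pj_lipschitz j).hausdorffMeasure_image_le (d := (m : ℝ))
        (by positivity) (Sj j)
      simpa using this
  have hdisj : Pairwise (Function.onFun Disjoint Sj) := by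
    intro a b hab
    simp only [Function.onFun]
    rw [Set.disjoint_left]
    rintro _ ⟨s, ⟨hs0, hs⟩, rfl⟩ ⟨t, ⟨ht0, ht⟩, hst⟩
    have := gm_inj hst
    subst this
    apply hN t _ ht0
    intro i
    by_cases hi : i = a
    · exact ht i (fun h => hab (hi.symm.trans h))
    · exact hs i hi
  refine ⟨S, ⟨?_, hS⟩, ?_⟩
  · rintro _ ⟨t, _, rfl⟩ i
    exact ⟨(hG01 _).1.le, (hG01 _).2.le⟩
  · have hU : μH[(m : ℝ)] (⋃ j, Sj j) = (m + 1 : ℕ) * μH[(m : ℝ)] (cube m) := by
      rw [measure_iUnion hdisj hSjm, tsum_fintype]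
      simp [hSjmeas]
    apply le_antisymm
    · have hcov : S ⊆ (⋃ j, Sj j) ∪ ⋃ a, ⋃ b, ⋃ (_ : a ≠ b), R a b := by
        rintro _ ⟨t, ht, rfl⟩
        by_cases h : ∃ j, ∀ i, i ≠ j → t i ∈ N
        · obtain ⟨j, hj⟩ := h
          exact Or.inl (mem_iUnion.2 ⟨j, ⟨t, ⟨ht, hj⟩, rfl⟩⟩)
        · right
          push Not at h
          obtain ⟨a, _, ha⟩ := h 0
          obtain ⟨b, hba, hb⟩ := h a
          simp only [mem_iUnion]
          exact ⟨a, b, hba.symm, ⟨t, ⟨ht, ha, hb⟩, rfl⟩⟩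
      have hRz : μH[(m : ℝ)] (⋃ a, ⋃ b, ⋃ (_ : a ≠ b), R a b) = 0 := by
        rw [measure_iUnion_null_iff]
        intro a
        rw [measure_iUnion_null_iff]
        intro b
        rw [measure_iUnion_null_iff]
        intro hab
        exact hRnull a b hab
      calc μH[(m : ℝ)] S ≤ μH[(m : ℝ)] ((⋃ j, Sj j) ∪ ⋃ a, ⋃ b, ⋃ (_ : a ≠ b), R a b) :=
            measure_mono hcov
        _ ≤ μH[(m : ℝ)] (⋃ j, Sj j) + μH[(m : ℝ)] (⋃ a, ⋃ b, ⋃ (_ : a ≠ b), R a b) :=
            measure_union_le _ _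
        _ = (m + 1 : ℕ) * μH[(m : ℝ)] (cube m) := by rw [hRz, add_zero, hU]
    · rw [← hU]
      exact measure_mono (iUnion_subset hSjS)

/-- **For every `n ≥ 2` (in particular for every `n ≥ 3`) there is an `n`-cube antichain whose
`(n-1)`-dimensional Hausdorff measure is `n` times that of a facet of the cube.** -/
theorem result (n : ℕ) (hn : 2 ≤ n) :
    ∃ S : Set (EuclideanSpace ℝ (Fin n)), IsCubeAntichain n S ∧
      ∀ j : Fin n, μH[(n : ℝ) - 1] (cubeFacet n j) ≠ 0 ∧ μH[(n : ℝ) - 1] (cubeFacet n j) ≠ ⊤ ∧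
        μH[(n : ℝ) - 1] S = n * μH[(n : ℝ) - 1] (cubeFacet n j) := by
  obtain ⟨m, rfl⟩ : ∃ m, n = m + 1 := ⟨n - 1, by omega⟩
  obtain ⟨S, hS, hS2⟩ := main m
  have e : ((m + 1 : ℕ) : ℝ) - 1 = (m : ℝ) := by push_cast; ring
  refine ⟨S, hS, fun j => ?_⟩
  rw [e, facet_measure j]
  exact ⟨cube_pos, cube_finite, hS2⟩

end Pool.Agent.Results.MP_efb25f_co.MaximalAntichain
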